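import Mathlib

/-!
# Linear families of vectors: generic independence
-/

set_option autoImplicit false

namespace Pool.Agent.H38.RC

open Module

/-- the number of the zeros in a box of a determinant whose entries are linear forms -/
lemma zeros_le {R g : ℕ} (hR : 0 < R) (b : Fin R → Fin g → Fin g → ℚ) (x₀ : Fin R → ℚ)
    (h₀ : (Matrix.of fun i k => ∑ j, x₀ j * b j i k).det ≠ 0) (T : ℕ) :
    {x : Fin R → ℤ | (∀ j, |x j| ≤ T) ∧ (Matrix.of fun i k => ∑ j, (x j : ℚ) * b j i k).det = 0}.ncard ≤
      g * (2 * T + 1) ^ (R - 1) := by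
  classical
  let M : Matrix (Fin g) (Fin g) (MvPolynomial (Fin R) ℚ) :=
    Matrix.of fun i k => ∑ j, MvPolynomial.X j * MvPolynomial.C (b j i k)
  let P : MvPolynomial (Fin R) ℚ := M.det
  have heval : ∀ y : Fin R → ℚ, MvPolynomial.eval y P = (Matrix.of fun i k => ∑ j, y j * b j i k).det := by
    intro y
    change MvPolynomial.eval y M.det = _
    rw [RingHom.map_det]
    congr 1
    ext i k
    simp [M, RingHom.mapMatrix_apply]
  have hP : P ≠ 0 := by
    intro h
    apply h₀
    rw [← heval, h, map_zero]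
  have hdeg : P.totalDegree ≤ g := by
    change M.det.totalDegree ≤ g
    rw [Matrix.det_apply]
    refine MvPolynomial.totalDegree_finsetSum_le fun σ _ => ?_
    refine (MvPolynomial.totalDegree_smul_le _ _).trans ?_
    refine (MvPolynomial.totalDegree_finsetProd _ _).trans ?_
    calc ∑ i : Fin g, (M (σ i) i).totalDegree ≤ ∑ _i : Fin g, 1 := by
          apply Finset.sum_le_sum
          intro i _
          change (∑ j, MvPolynomial.X j * MvPolynomial.C (b j (σ i) i) : MvPolynomial (Fin R) ℚ).totalDegree ≤ 1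
          refine MvPolynomial.totalDegree_finsetSum_le fun j _ => ?_
          refine (MvPolynomial.totalDegree_mul _ _).trans ?_
          rw [MvPolynomial.totalDegree_X, MvPolynomial.totalDegree_C]
      _ = g := by simp
  let S : Finset ℚ := (Finset.Icc (-(T : ℤ)) T).image (Int.cast : ℤ → ℚ)
  have hS : S.card = 2 * T + 1 := by
    rw [Finset.card_image_of_injective _ Int.cast_injective, Int.card_Icc]
    omega
  have hsz := MvPolynomial.schwartz_zippel_totalDegree hP S
  set Z := Finset.filter (fun f => MvPolynomial.eval f P = 0) (Fintype.piFinset fun _ : Fin R => S) with hZ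
  have h1 : Z.card ≤ g * (2 * T + 1) ^ (R - 1) := by
    rw [hS] at hsz
    have h2 : ((2 * T + 1 : ℕ) : ℚ≥0) ≠ 0 := by positivity
    have h3 : (Z.card : ℚ≥0) ≤ (P.totalDegree : ℚ≥0) / ((2 * T + 1 : ℕ) : ℚ≥0) * ((2 * T + 1 : ℕ) : ℚ≥0) ^ R := by
      rwa [div_le_iff₀ (by positivity)] at hsz
    have h4 : ((2 * T + 1 : ℕ) : ℚ≥0) ^ R = ((2 * T + 1 : ℕ) : ℚ≥0) ^ (R - 1) * ((2 * T + 1 : ℕ) : ℚ≥0) := by
      rw [← pow_succ]
      congr 1
      omega
    have h5 : (Z.card : ℚ≥0) ≤ (P.totalDegree : ℚ≥0) * ((2 * T + 1 : ℕ) : ℚ≥0) ^ (R - 1) := by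
      refine h3.trans (le_of_eq ?_)
      rw [h4]
      field_simp
    have h6 : Z.card ≤ P.totalDegree * (2 * T + 1) ^ (R - 1) := by exact_mod_cast h5
    exact h6.trans (Nat.mul_le_mul_right _ hdeg)
  refine le_trans ?_ h1
  rw [← Set.ncard_coe_finset]
  refine Set.ncard_le_ncard_of_injOn (fun (x : Fin R → ℤ) (j : Fin R) => (x j : ℚ)) ?_ ?_ (Finset.finite_toSet _)
  · rintro x ⟨hx1, hx2⟩
    rw [Finset.mem_coe, hZ, Finset.mem_filter, Fintype.mem_piFinset]
    refine ⟨fun k => ?_, by rw [heval]; exact hx2⟩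
    rw [Finset.mem_image]
    exact ⟨_, Finset.mem_Icc.2 (abs_le.1 (hx1 _)), rfl⟩
  · intro x _ y _ hxy
    funext j
    have := congrFun hxy j
    simpa using this

variable {W : Type} [AddCommGroup W] [Module ℚ W]

/-- a left inverse of an independent family -/
lemma left_inv {κ : Type} [Fintype κ] [DecidableEq κ] {u : κ → W} (hu : LinearIndependent ℚ u) :
    ∃ L : W →ₗ[ℚ] (κ → ℚ), ∀ i, L (u i) = Pi.single i 1 := by
  let f : (κ → ℚ) →ₗ[ℚ] W := Fintype.linearCombination ℚ u
  have hf : LinearMap.ker f = ⊥ := by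
    rw [LinearMap.ker_eq_bot']
    intro c hc
    funext i
    exact Fintype.linearIndependent_iff.1 hu c (by simpa [f, Fintype.linearCombination_apply] using hc) i
  obtain ⟨L, hL⟩ := f.exists_leftInverse_of_injective hf
  refine ⟨L, fun i => ?_⟩
  have := congrArg (fun φ : (κ → ℚ) →ₗ[ℚ] (κ → ℚ) => φ (Pi.single i 1)) hL
  simpa [f, Fintype.linearCombination_apply_single] using this

/-- independence from a determinant -/
lemma indep_of_det {κ : Type} [Fintype κ] [DecidableEq κ] (L : W →ₗ[ℚ] (κ → ℚ)) {v : κ → W}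
    (h : (Matrix.of fun i => L (v i)).det ≠ 0) : LinearIndependent ℚ v := by
  have h1 : LinearIndependent ℚ (Matrix.of fun i => L (v i)).row :=
    Matrix.linearIndependent_rows_of_det_ne_zero h
  exact LinearIndependent.of_comp L h1

/-- independence is an open condition -/
lemma open_indep {κ : Type} [Fintype κ] {u : κ → W} (v : κ → W) (hu : LinearIndependent ℚ u) :
    ∃ t : ℚ, t ≠ 0 ∧ LinearIndependent ℚ fun i => u i + t • v i := by
  classical
  obtain ⟨L, hL⟩ := left_inv hu
  let N : Matrix κ κ ℚ := Matrix.of fun i => L (v i)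
  let p : Polynomial ℚ := (1 + (Polynomial.X : Polynomial ℚ) • N.map Polynomial.C).det
  have hev : ∀ t : ℚ, p.eval t = (Matrix.of fun i => L (u i + t • v i)).det := by
    intro t
    change Polynomial.eval t (Matrix.det _) = _
    rw [← Polynomial.coe_evalRingHom, RingHom.map_det]
    congr 1
    ext i k
    simp only [RingHom.mapMatrix_apply, Matrix.map_apply, Matrix.add_apply, Matrix.smul_apply, map_add, Matrix.of_apply,
      Pi.add_apply, map_smul, Pi.smul_apply, hL, N, smul_eq_mul, map_mul, Polynomial.coe_evalRingHom, Polynomial.eval_X,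
      Polynomial.eval_C, Matrix.one_apply, Pi.single_apply]
    by_cases h : i = k
    · subst h; simp; exact mul_comm _ _
    · simp [h, Ne.symm h, eq_comm]; exact mul_comm _ _
  have hp : p ≠ 0 := by
    intro h
    have h1 := hev 0
    rw [h, Polynomial.eval_zero] at h1
    have h2 : (Matrix.of fun i => L (u i + (0 : ℚ) • v i)) = 1 := by
      ext i k
      simp [hL, Matrix.one_apply, Pi.single_apply, eq_comm]
    rw [h2, Matrix.det_one] at h1
    exact zero_ne_one h1
  have hXp : Polynomial.X * p ≠ 0 := mul_ne_zero Polynomial.X_ne_zero hp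
  obtain ⟨t, ht⟩ : ∃ t, (Polynomial.X * p).eval t ≠ 0 := by
    by_contra hcon
    push Not at hcon
    exact hXp (Polynomial.funext fun t => by rw [hcon t, Polynomial.eval_zero])
  rw [Polynomial.eval_mul, Polynomial.eval_X, hev] at ht
  exact ⟨t, left_ne_zero_of_mul ht, indep_of_det L (right_ne_zero_of_mul ht)⟩

/-- **Generic independence**: if for all `m ≠ 0` the space of the `x` with `∑ m i x j B j i = 0` has dimension at most `k` and there
are at least `k + g` parameters then the vectors `∑ x j B j i` are independent for some `x`. -/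
theorem exists_indep {R g k : ℕ} (B : Fin R → Fin g → W)
    (H : ∀ m : Fin g → ℚ, m ≠ 0 →
      finrank ℚ (LinearMap.ker (Fintype.linearCombination ℚ fun j => ∑ i, m i • B j i)) ≤ k)
    (hR : k + g ≤ R) : ∃ x : Fin R → ℚ, LinearIndependent ℚ fun i => ∑ j, x j • B j i := by
  classical
  let f : (Fin R → ℚ) → Fin g → W := fun x i => ∑ j, x j • B j i
  have hfadd : ∀ x y i, f (x + y) i = f x i + f y i := by
    intro x y i
    simp [f, add_smul, Finset.sum_add_distrib]
  have hfsmul : ∀ (t : ℚ) x i, f (t • x) i = t • f x i := by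
    intro t x i
    simp [f, mul_smul, Finset.smul_sum]
  let ρ : (Fin R → ℚ) → ℕ := fun x => finrank ℚ (Submodule.span ℚ (Set.range (f x)))
  have hρ : ∀ x, ρ x ≤ g := fun x => by
    have := finrank_range_le_card (R := ℚ) (f x)
    simpa [ρ, Set.finrank] using this
  obtain ⟨x₀, hx₀⟩ : ∃ x₀, ∀ x, ρ x ≤ ρ x₀ := by
    have hfin : (Set.range ρ).Finite := (Set.finite_Iic g).subset (by rintro _ ⟨x, rfl⟩; exact hρ x)
    obtain ⟨_, ⟨x₀, rfl⟩, hmax⟩ := hfin.exists_maximalFor id _ ⟨_, Set.mem_range_self 0⟩
    refine ⟨x₀, fun x => ?_⟩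
    rcases le_total (ρ x) (ρ x₀) with h | h
    · exact h
    · exact hmax ⟨x, rfl⟩ h
  by_contra hcon
  push Not at hcon
  have hdep : ¬ LinearIndependent ℚ (f x₀) := hcon x₀
  obtain ⟨m, hm0, hm⟩ : ∃ m : Fin g → ℚ, m ≠ 0 ∧ ∑ i, m i • f x₀ i = 0 := by
    rw [Fintype.not_linearIndependent_iff] at hdep
    obtain ⟨m, h1, i, hi⟩ := hdep
    exact ⟨m, fun h => hi (by rw [h]; rfl), h1⟩
  have hlt : ρ x₀ < g := by
    refine lt_of_le_of_ne (hρ x₀) fun h => hdep ?_
    rw [linearIndependent_iff_card_eq_finrank_span, Fintype.card_fin]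
    exact h.symm
  -- the claim
  have claim : ∀ x, ∑ i, m i • f x i ∈ Submodule.span ℚ (Set.range (f x₀)) := by
    intro x
    by_contra hy
    obtain ⟨s, hs1, hs2, hs3⟩ := exists_linearIndependent ℚ (Set.range (f x₀))
    have hsfin : s.Finite := (Set.finite_range (f x₀)).subset hs1
    let _ : Fintype s := hsfin.fintype
    have hcard : Fintype.card s = ρ x₀ := by
      have h1 := finrank_span_eq_card hs3
      rw [Subtype.range_coe, hs2] at h1
      exact h1.symm
    choose idx hidx using fun a : s => hs1 a.2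
    set y := ∑ i, m i • f x i with hydef
    have hopt : LinearIndependent ℚ (fun o : Option s => o.elim y fun a => (a : W)) := by
      rw [linearIndependent_option]
      refine ⟨hs3, ?_⟩
      have : Set.range ((fun o : Option s => o.elim y fun a => (a : W)) ∘ some) = s := by
        ext z
        simp
      rw [this, hs2]
      exact hy
    obtain ⟨t, ht, hind⟩ := open_indep (fun o : Option s => o.elim 0 fun a => f x (idx a)) hopt
    have hsub : Set.range (fun o : Option s => (o.elim y fun a => (a : W)) + t • (o.elim 0 fun a => f x (idx a))) ⊆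
        Submodule.span ℚ (Set.range (f (x₀ + t • x))) := by
      rintro _ ⟨o, rfl⟩
      rcases o with _ | a
      · have h1 : ∑ i, m i • f (x₀ + t • x) i = t • y := by
          simp only [hfadd, hfsmul, smul_add, Finset.sum_add_distrib, hm, zero_add, hydef, Finset.smul_sum]
          refine Finset.sum_congr rfl fun i _ => ?_
          rw [smul_comm]
        have h2 : y = t⁻¹ • ∑ i, m i • f (x₀ + t • x) i := by
          rw [h1, smul_smul, inv_mul_cancel₀ ht, one_smul]
        show y + t • (0 : W) ∈ _
        rw [smul_zero, add_zero, h2]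
        exact Submodule.smul_mem _ _ (Submodule.sum_mem _ fun i _ => Submodule.smul_mem _ _ (Submodule.subset_span ⟨i, rfl⟩))
      · show (a : W) + t • f x (idx a) ∈ _
        rw [← hidx a, ← hfsmul, ← hfadd]
        exact Submodule.subset_span ⟨_, rfl⟩
    have : FiniteDimensional ℚ (Submodule.span ℚ (Set.range (f (x₀ + t • x)))) :=
      FiniteDimensional.span_of_finite ℚ (Set.finite_range _)
    have h3 := finrank_span_eq_card hind
    have h4 : finrank ℚ (Submodule.span ℚ (Set.range
        (fun o : Option s => (o.elim y fun a => (a : W)) + t • (o.elim 0 fun a => f x (idx a))))) ≤ ρ (x₀ + t • x) :=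
      Submodule.finrank_mono (Submodule.span_le.2 hsub)
    rw [h3, Fintype.card_option, hcard] at h4
    have := hx₀ (x₀ + t • x)
    omega
  -- rank and nullity
  have hrn := LinearMap.finrank_range_add_finrank_ker (Fintype.linearCombination ℚ fun j => ∑ i, m i • B j i)
  have : FiniteDimensional ℚ (Submodule.span ℚ (Set.range (f x₀))) :=
    FiniteDimensional.span_of_finite ℚ (Set.finite_range _)
  have hle : finrank ℚ (LinearMap.range (Fintype.linearCombination ℚ fun j => ∑ i, m i • B j i)) ≤ ρ x₀ := by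
    refine Submodule.finrank_mono ?_
    rintro _ ⟨x, rfl⟩
    have h1 : Fintype.linearCombination ℚ (fun j => ∑ i, m i • B j i) x = ∑ i, m i • f x i := by
      simp only [Fintype.linearCombination_apply, f, Finset.smul_sum]
      rw [Finset.sum_comm]
      refine Finset.sum_congr rfl fun i _ => Finset.sum_congr rfl fun j _ => ?_
      rw [smul_comm]
    rw [h1]
    exact claim x
  have hH := H m hm0
  rw [Module.finrank_fin_fun] at hrn
  omega

end Pool.Agent.H38.RC
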