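import Pool.Graph.R_seed8.TH574.PZ.Kron

/-!
# Closures of subgroups of a compact group whose component of the origin is a torus
-/

set_option autoImplicit false

namespace Pool.Agent.H38.RC

open Module

lemma clear_denoms {I : Type} [Fintype I] (m : I → ℚ) :
    ∃ (d : ℕ) (m' : I → ℤ), d ≠ 0 ∧ ∀ i, (m' i : ℚ) = d * m i := by
  refine ⟨∏ i, (m i).den, fun i => (m i).num * ((∏ i, (m i).den) / (m i).den : ℕ),
    Finset.prod_ne_zero_iff.2 fun i _ => (m i).den_nz, fun i => ?_⟩
  obtain ⟨c, hc⟩ : (m i).den ∣ ∏ i, (m i).den := Finset.dvd_prod_of_mem _ (Finset.mem_univ i)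
  have h1 : (∏ i, (m i).den) / (m i).den = c := by
    rw [hc, Nat.mul_div_cancel_left _ (m i).pos]
  show (((m i).num * (((∏ i, (m i).den) / (m i).den : ℕ) : ℤ) : ℤ) : ℚ) = _
  rw [h1, hc]
  push_cast
  have h := Rat.mul_den_eq_num (m i)
  rw [← h]
  ring

/-- the vector space `ℝ / ℚ` -/
abbrev W : Type := ℝ ⧸ (Submodule.span ℚ {(1 : ℝ)})

/-- the map `ℝ / ℤ → ℝ / ℚ` -/
noncomputable def κ : UnitAddCircle →+ W :=
  QuotientAddGroup.lift (AddSubgroup.zmultiples (1 : ℝ)) (Submodule.mkQ (Submodule.span ℚ {(1 : ℝ)})).toAddMonoidHom (by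
    intro x hx
    obtain ⟨n, rfl⟩ := AddSubgroup.mem_zmultiples_iff.1 hx
    show Submodule.Quotient.mk _ = (0 : W)
    rw [Submodule.Quotient.mk_eq_zero, ← Int.cast_smul_eq_zsmul ℚ]
    exact Submodule.smul_mem _ _ (Submodule.mem_span_singleton_self _))

lemma κ_coe (x : ℝ) : κ (x : UnitAddCircle) = Submodule.Quotient.mk x := rfl

lemma torsion_of_κ {t : UnitAddCircle} (h : κ t = 0) : ∃ n : ℕ, n ≠ 0 ∧ n • t = 0 := by
  induction t using QuotientAddGroup.induction_on with
  | H x =>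
    have h1 : (Submodule.Quotient.mk x : W) = 0 := h
    rw [Submodule.Quotient.mk_eq_zero, Submodule.mem_span_singleton] at h1
    obtain ⟨q, rfl⟩ := h1
    refine ⟨q.den, q.den_nz, ?_⟩
    show q.den • (((q • (1 : ℝ) : ℝ)) : UnitAddCircle) = 0
    rw [← AddCircle.coe_nsmul, AddCircle.coe_eq_zero_iff]
    refine ⟨q.num, ?_⟩
    have h2 : ((q.den : ℚ) : ℝ) * (q : ℝ) = (q.num : ℝ) := by
      rw [mul_comm]
      exact_mod_cast Rat.mul_den_eq_num q
    rw [Rat.smul_def, mul_one, nsmul_eq_mul, zsmul_eq_mul, mul_one, ← h2]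
    simp

variable {g : ℕ} {Γ G : Type} [AddCommGroup Γ] [AddCommGroup G] [TopologicalSpace G] [IsTopologicalAddGroup G] [CompactSpace G]
  [T2Space G]

set_option linter.unusedSectionVars false

/-- The compact group `G` (`A(ℝ)`) has finitely many components and the component of the origin is, by the map `e`, the torus
`(ℝ / ℤ) ^ g`. -/
structure IsRealPoints (e : UnitAddTorus (Fin g) →+ G) : Prop where
  continuous : Continuous e
  injective : Function.Injective e
  component : Set.range e = connectedComponent (0 : G)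
  finiteIndex : e.range.FiniteIndex

section
variable {e : UnitAddTorus (Fin g) →+ G} {ι : Γ →+ G}

lemma exists_tau (he : IsRealPoints e) (ι : Γ →+ G) :
    ∃ (N : ℕ) (τ : Γ →+ UnitAddTorus (Fin g)), N ≠ 0 ∧ ∀ γ, e (τ γ) = N • ι γ := by
  have hN : e.range.index ≠ 0 := he.finiteIndex.index_ne_zero
  have hmem : ∀ x : G, e.range.index • x ∈ e.range := fun x => AddSubgroup.nsmul_index_mem _ x
  let φ : Γ →+ e.range := ((nsmulAddMonoidHom e.range.index).comp ι).codRestrict e.range (fun γ => hmem (ι γ))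
  let E : UnitAddTorus (Fin g) ≃+ e.range := AddMonoidHom.ofInjective he.injective
  refine ⟨_, E.symm.toAddMonoidHom.comp φ, hN, fun γ => ?_⟩
  have h1 : E (E.symm (φ γ)) = φ γ := E.apply_symm_apply _
  exact congrArg Subtype.val h1

variable {N : ℕ} {τ : Γ →+ UnitAddTorus (Fin g)}

theorem good_of_indep (he : IsRealPoints e) (h : ∀ γ, e (τ γ) = N • ι γ) (P : Γ)
    (hP : LinearIndependent ℚ fun i => κ (τ P i)) :
    connectedComponent (0 : G) ⊆ closure (Set.range fun n : ℤ => n • ι P) := by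
  rw [← he.component]
  rintro _ ⟨t, rfl⟩
  have ht : t ∈ closure (Set.range fun n : ℤ => n • τ P) := by
    rw [Metric.mem_closure_iff]
    intro ε hε
    have hk : ∀ k : Fin g → ℤ, ∑ i, k i • τ P i = 0 → ∑ i, k i • t i = 0 := by
      intro k hk
      have h1 : ∑ i, (k i : ℚ) • κ (τ P i) = 0 := by
        have h0 := congrArg κ hk
        rw [map_sum, map_zero] at h0
        rw [← h0]
        refine Finset.sum_congr rfl fun i _ => ?_
        rw [map_zsmul, Int.cast_smul_eq_zsmul]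
      have h2 := Fintype.linearIndependent_iff.1 hP _ h1
      refine Finset.sum_eq_zero fun i _ => ?_
      have h3 : k i = 0 := by exact_mod_cast h2 i
      rw [h3, zero_smul]
    obtain ⟨n, hn⟩ := Pool.Agent.TH574.PZ.kronecker (τ P) t hk ε hε
    exact ⟨_, ⟨n, rfl⟩, by rw [dist_comm]; exact hn⟩
  have h3 := image_closure_subset_closure_image he.continuous ⟨t, ht, rfl⟩
  refine closure_mono ?_ h3
  rintro _ ⟨_, ⟨n, rfl⟩, rfl⟩
  refine ⟨n * N, ?_⟩
  show (n * N : ℤ) • ι P = e (n • τ P)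
  rw [map_zsmul, h, mul_smul, natCast_zsmul]

theorem exists_ne (he : IsRealPoints e) (hN : N ≠ 0) (h : ∀ γ, e (τ γ) = N • ι γ) {n : ℕ} (S : Fin n → Γ) (D : Set Γ)
    (hD : D ⊆ AddSubgroup.closure (Set.range S)) (hd : connectedComponent (0 : G) ⊆ closure (ι '' D)) (m : Fin g → ℚ)
    (hm : m ≠ 0) : ∃ j, ∑ i, m i • κ (τ (S j) i) ≠ 0 := by
  classical
  by_contra hcon
  push Not at hcon
  obtain ⟨d, m', hd0, hm'⟩ := clear_denoms m
  let χ : UnitAddTorus (Fin g) →+ UnitAddCircle := ∑ i, m' i • (Pi.evalAddMonoidHom (fun _ : Fin g => UnitAddCircle) i)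
  have hχ : ∀ t, χ t = ∑ i, m' i • t i := by
    intro t
    simp [χ]
  have h0 : ∀ j, κ (χ (τ (S j))) = 0 := by
    intro j
    rw [hχ, map_sum]
    have h1 : ∀ i, κ (m' i • τ (S j) i) = (d : ℚ) • (m i • κ (τ (S j) i)) := by
      intro i
      rw [map_zsmul, smul_smul, ← hm', Int.cast_smul_eq_zsmul]
    rw [Finset.sum_congr rfl fun i _ => h1 i, ← Finset.smul_sum, hcon j, smul_zero]
  choose M hM hM0 using fun j => torsion_of_κ (h0 j)
  set M0 := ∏ j, M j with hM0def
  have hM0ne : M0 ≠ 0 := Finset.prod_ne_zero_iff.2 fun j _ => hM j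
  have hker : ∀ δ ∈ AddSubgroup.closure (Set.range S), M0 • χ (τ δ) = 0 := by
    have hle : AddSubgroup.closure (Set.range S) ≤ ((nsmulAddMonoidHom M0).comp (χ.comp τ)).ker := by
      rw [AddSubgroup.closure_le]
      rintro _ ⟨j, rfl⟩
      obtain ⟨c, hc⟩ : M j ∣ M0 := Finset.dvd_prod_of_mem _ (Finset.mem_univ j)
      show M0 • χ (τ (S j)) = 0
      rw [hc, mul_comm, mul_smul, hM0 j, smul_zero]
    intro δ hδ
    exact hle hδ
  let K : Set (UnitAddTorus (Fin g)) := {t | M0 • χ t = 0}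
  have hKc : IsClosed K := by
    refine isClosed_eq ?_ continuous_const
    have h1 : (fun t => M0 • χ t) = fun t : UnitAddTorus (Fin g) => M0 • ∑ i, m' i • t i := by
      funext t
      rw [hχ]
    rw [h1]
    fun_prop
  let C : Set G := (fun x => N • x) ⁻¹' (e '' K)
  have hC : IsClosed C := ((hKc.isCompact.image he.continuous).isClosed).preimage (continuous_nsmul N)
  have h1 : closure (ι '' D) ⊆ C := by
    refine closure_minimal ?_ hC
    rintro _ ⟨δ, hδ, rfl⟩
    exact ⟨τ δ, hker δ (hD hδ), h δ⟩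
  have h2 : ∀ t, (M0 * N) • χ t = 0 := by
    intro t
    have hmem : e t ∈ connectedComponent (0 : G) := by
      rw [← he.component]
      exact ⟨t, rfl⟩
    obtain ⟨t', ht', ht''⟩ := h1 (hd hmem)
    have h4 : t' = N • t := he.injective (by rw [ht'', map_nsmul])
    rw [h4] at ht'
    have h5 : M0 • χ (N • t) = 0 := ht'
    rwa [map_nsmul, smul_smul] at h5
  obtain ⟨i0, hi0⟩ : ∃ i0, m' i0 ≠ 0 := by
    by_contra hall
    push Not at hall
    apply hm
    funext i
    have h3 := hm' i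
    rw [hall i, Int.cast_zero] at h3
    have h4 : (d : ℚ) ≠ 0 := by exact_mod_cast hd0
    exact (mul_eq_zero.1 h3.symm).resolve_left h4
  have h3 := h2 (Pi.single i0 ((1 / (2 * ((M0 * N : ℕ) * m' i0 : ℝ)) : ℝ) : UnitAddCircle))
  rw [hχ, Finset.sum_eq_single i0 (fun i _ hi => by rw [Pi.single_eq_of_ne hi, smul_zero]) (fun hi => absurd (Finset.mem_univ _) hi),
    Pi.single_eq_same, ← AddCircle.coe_zsmul, ← AddCircle.coe_nsmul, AddCircle.coe_eq_zero_iff] at h3
  obtain ⟨z, hz⟩ := h3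
  have hMN : ((M0 * N : ℕ) : ℝ) ≠ 0 := by exact_mod_cast Nat.mul_ne_zero hM0ne hN
  have hmi : (m' i0 : ℝ) ≠ 0 := by exact_mod_cast hi0
  rw [nsmul_eq_mul, zsmul_eq_mul, zsmul_eq_mul, mul_one] at hz
  have h4 : (z : ℝ) * 2 = 1 := by
    rw [hz]
    field_simp
  have h5 : z * 2 = 1 := by exact_mod_cast h4
  omega

end

end Pool.Agent.H38.RC
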