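import Pool.Agent.H38.RC.Lin
import Pool.Agent.H38.RC.Top

/-!
# Abelian varieties with multiplication by a field of degree `g`
-/

set_option autoImplicit false

namespace Pool.Agent.H38.RC

open Module

variable {Γ G : Type} [AddCommGroup Γ] [AddCommGroup G] [TopologicalSpace G]

/-- The order `O` of the field `F` acts by endomorphisms on `A`: the endomorphism `a` acts on `A(ℚ)` by `ε a`, on `A(ℝ)` by a
compatible endomorphism `σ`, and on the torus by the integral matrix `act a`. -/
structure IsEndField {g : ℕ} (e : UnitAddTorus (Fin g) →+ G) (ι : Γ →+ G) {F : Type} [Field F] [NumberField F]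
    (act : F →ₐ[ℚ] Matrix (Fin g) (Fin g) ℚ) (O : Subring F) (ε : O →+* AddMonoid.End Γ) : Prop where
  order : ∀ x : F, ∃ N : ℕ, N ≠ 0 ∧ (N : F) * x ∈ O
  compat : ∀ a : O, ∃ (σ : G →+ G) (A : Matrix (Fin g) (Fin g) ℤ), (∀ P, ι (ε a P) = σ (ι P)) ∧
    (∀ i j, (A i j : ℚ) = act a i j) ∧ ∀ t : UnitAddTorus (Fin g), σ (e t) = e (fun i => ∑ j, A i j • t j)

variable {g : ℕ} {e : UnitAddTorus (Fin g) →+ G} {ι : Γ →+ G} {N : ℕ} {τ : Γ →+ UnitAddTorus (Fin g)}
  {F : Type} [Field F] [NumberField F] {act : F →ₐ[ℚ] Matrix (Fin g) (Fin g) ℚ} {O : Subring F} {ε : O →+* AddMonoid.End Γ}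

lemma κτ_end (he : Function.Injective e) (h : ∀ γ, e (τ γ) = N • ι γ) (hF : IsEndField e ι act O ε) (a : O) (P : Γ) (i : Fin g) :
    κ (τ (ε a P) i) = ∑ j, act a i j • κ (τ P j) := by
  obtain ⟨σ, A, h1, h2, h3⟩ := hF.compat a
  have h4 : e (τ (ε a P)) = e (fun i => ∑ j, A i j • τ P j) := by
    rw [h, h1, ← map_nsmul, ← h, h3]
  have h5 := congrFun (he h4) i
  rw [h5, map_sum]
  refine Finset.sum_congr rfl fun j _ => ?_
  rw [map_zsmul, ← h2, Int.cast_smul_eq_zsmul]

theorem finrank_ker_le (he : Function.Injective e) (hι : Function.Injective ι) (hN : N ≠ 0) (h : ∀ γ, e (τ γ) = N • ι γ)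
    (hF : IsEndField e ι act O ε) (hdeg : finrank ℚ F = g) {R : ℕ} (Q : Fin R → Γ) (hQ : LinearIndependent ℤ Q)
    (hfin : ∀ P : Γ, ∃ M : ℕ, M ≠ 0 ∧ M • P ∈ AddSubgroup.closure (Set.range Q)) (hR : g ^ 2 ≤ R) (hg : 0 < g)
    (m : Fin g → ℚ) (hm : m ≠ 0) :
    finrank ℚ (LinearMap.ker (Fintype.linearCombination ℚ fun j => ∑ i, m i • κ (τ (Q j) i))) ≤ R - g := by
  classical
  set φ := Fintype.linearCombination ℚ fun j => ∑ i, m i • κ (τ (Q j) i) with hφ
  have hφa : ∀ x, φ x = ∑ j, x j • ∑ i, m i • κ (τ (Q j) i) := fun x => by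
    rw [hφ, Fintype.linearCombination_apply]
  -- integral elements
  have hA : ∀ (a : O) j, ∑ i, ((act a).transpose.mulVec m) i • κ (τ (Q j) i) ∈ LinearMap.range φ := by
    intro a j
    obtain ⟨M, hM, hM1⟩ := hfin (ε a (Q j))
    obtain ⟨c, hc⟩ : ∃ c : Fin R → ℤ, ∑ l, c l • Q l = M • ε a (Q j) := by
      rw [← Submodule.span_int_eq_addSubgroupClosure] at hM1
      exact (Submodule.mem_span_range_iff_exists_fun ℤ).1 hM1
    have h1 : ∑ i, ((act a).transpose.mulVec m) i • κ (τ (Q j) i) = ∑ k, m k • κ (τ (ε a (Q j)) k) := by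
      simp only [κτ_end he h hF, Matrix.mulVec, dotProduct, Matrix.transpose_apply, Finset.sum_smul, Finset.smul_sum, smul_smul]
      rw [Finset.sum_comm]
      refine Finset.sum_congr rfl fun k _ => Finset.sum_congr rfl fun i _ => ?_
      rw [mul_comm]
    have h2 : (M : ℚ) • ∑ k, m k • κ (τ (ε a (Q j)) k) = φ fun l => (c l : ℚ) := by
      have h3 : ∀ k, (M : ℚ) • κ (τ (ε a (Q j)) k) = ∑ l, (c l : ℚ) • κ (τ (Q l) k) := by
        intro k
        have h4 : τ (M • ε a (Q j)) k = ∑ l, c l • τ (Q l) k := by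
          rw [← hc, map_sum, Finset.sum_apply]
          refine Finset.sum_congr rfl fun l _ => ?_
          rw [map_zsmul, Pi.smul_apply]
        rw [map_nsmul, Pi.smul_apply] at h4
        have h5 := congrArg κ h4
        rw [map_nsmul, map_sum] at h5
        rw [Nat.cast_smul_eq_nsmul, h5]
        refine Finset.sum_congr rfl fun l _ => ?_
        rw [map_zsmul, Int.cast_smul_eq_zsmul]
      rw [hφa, Finset.smul_sum]
      simp only [Finset.smul_sum]
      rw [Finset.sum_comm]
      refine Finset.sum_congr rfl fun k _ => ?_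
      rw [smul_comm, h3, Finset.smul_sum]
      refine Finset.sum_congr rfl fun l _ => ?_
      rw [smul_comm]
    have hMq : (M : ℚ) ≠ 0 := by exact_mod_cast hM
    rw [h1]
    have h6 : ∑ k, m k • κ (τ (ε a (Q j)) k) = (M : ℚ)⁻¹ • φ fun l => (c l : ℚ) := by
      rw [← h2, smul_smul, inv_mul_cancel₀ hMq, one_smul]
    rw [h6]
    exact Submodule.smul_mem _ _ ⟨_, rfl⟩
  -- all elements
  have hB : ∀ (x : F) j, ∑ i, ((act x).transpose.mulVec m) i • κ (τ (Q j) i) ∈ LinearMap.range φ := by
    intro x j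
    obtain ⟨n, hn, hx⟩ := hF.order x
    have h1 := hA ⟨_, hx⟩ j
    have h2 : (n : F) * x = (n : ℚ) • x := by
      rw [Algebra.smul_def]
      simp
    have h3 : ∀ i, ((act ((n : F) * x)).transpose.mulVec m) i = (n : ℚ) * ((act x).transpose.mulVec m) i := by
      intro i
      rw [h2, map_smul, Matrix.transpose_smul, Matrix.smul_mulVec, Pi.smul_apply, smul_eq_mul]
    have h4 : (n : ℚ) • ∑ i, ((act x).transpose.mulVec m) i • κ (τ (Q j) i) ∈ LinearMap.range φ := by
      have h5 : ∑ i, ((act ((n : F) * x)).transpose.mulVec m) i • κ (τ (Q j) i) ∈ LinearMap.range φ := h1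
      simp only [h3, mul_smul, ← Finset.smul_sum] at h5
      exact h5
    have hnq : (n : ℚ) ≠ 0 := by exact_mod_cast hn
    have h6 := Submodule.smul_mem _ (n : ℚ)⁻¹ h4
    rwa [smul_smul, inv_mul_cancel₀ hnq, one_smul] at h6
  -- the orbit of `m`
  let θ : F →ₗ[ℚ] (Fin g → ℚ) :=
    { toFun := fun x => (act x).transpose.mulVec m
      map_add' := fun x y => by rw [map_add, Matrix.transpose_add, Matrix.add_mulVec]
      map_smul' := fun r x => by rw [map_smul, Matrix.transpose_smul, Matrix.smul_mulVec, RingHom.id_apply] }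
  have hθ : Function.Injective θ := by
    rw [injective_iff_map_eq_zero]
    intro x hx
    by_contra hx0
    apply hm
    have h1 : (act x).transpose.mulVec m = 0 := hx
    have h2 : (act x⁻¹).transpose.mulVec ((act x).transpose.mulVec m) = m := by
      rw [Matrix.mulVec_mulVec, ← Matrix.transpose_mul, ← map_mul, mul_inv_cancel₀ hx0, map_one, Matrix.transpose_one,
        Matrix.one_mulVec]
    rw [← h2, h1, Matrix.mulVec_zero]
  have hθs : Function.Surjective θ := by
    rw [← LinearMap.injective_iff_surjective_of_finrank_eq_finrank (by rw [hdeg, Module.finrank_fin_fun])]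
    exact hθ
  have hC : ∀ i j, κ (τ (Q j) i) ∈ LinearMap.range φ := by
    intro i j
    obtain ⟨x, hx⟩ := hθs (Pi.single i 1)
    have h1 := hB x j
    have h2 : (act x).transpose.mulVec m = Pi.single i 1 := hx
    rw [h2, Finset.sum_eq_single i (fun k _ hk => by rw [Pi.single_eq_of_ne hk, zero_smul])
      (fun hi => absurd (Finset.mem_univ _) hi), Pi.single_eq_same, one_smul] at h1
    exact h1
  -- the injective map
  let Ψ : (Fin R → ℚ) →ₗ[ℚ] (Fin g → LinearMap.range φ) :=
    LinearMap.pi fun i => Fintype.linearCombination ℚ fun j => (⟨κ (τ (Q j) i), hC i j⟩ : LinearMap.range φ)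
  have hΨ : Function.Injective Ψ := by
    rw [injective_iff_map_eq_zero]
    intro x hx
    obtain ⟨d, z, hd, hz⟩ := clear_denoms x
    have h1 : ∀ i, ∑ j, x j • κ (τ (Q j) i) = 0 := by
      intro i
      have h2 := congrArg Subtype.val (congrFun hx i)
      simpa [Ψ, Fintype.linearCombination_apply] using h2
    have h2 : ∀ i, κ (τ (∑ j, z j • Q j) i) = 0 := by
      intro i
      rw [map_sum, Finset.sum_apply, map_sum]
      have h3 : ∀ j, κ (τ (z j • Q j) i) = (d : ℚ) • (x j • κ (τ (Q j) i)) := by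
        intro j
        rw [map_zsmul, Pi.smul_apply, map_zsmul, smul_smul, ← hz, Int.cast_smul_eq_zsmul]
      rw [Finset.sum_congr rfl fun j _ => h3 j, ← Finset.smul_sum, h1, smul_zero]
    choose n hn hn0 using fun i => torsion_of_κ (h2 i)
    have hn1 : (∏ i, n i) • τ (∑ j, z j • Q j) = 0 := by
      funext i
      obtain ⟨c, hc⟩ : n i ∣ ∏ i, n i := Finset.dvd_prod_of_mem _ (Finset.mem_univ i)
      rw [Pi.smul_apply, hc, mul_comm, mul_smul, hn0 i, smul_zero]
      rfl
    have hn2 : ((∏ i, n i) * N) • ∑ j, z j • Q j = 0 := by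
      apply hι
      rw [map_nsmul, mul_smul, ← h, ← map_nsmul, hn1, map_zero, map_zero]
    have hne : (∏ i, n i) * N ≠ 0 := Nat.mul_ne_zero (Finset.prod_ne_zero_iff.2 fun i _ => hn i) hN
    have h3 : ∑ j, ((((∏ i, n i) * N : ℕ) : ℤ) * z j) • Q j = 0 := by
      rw [← hn2, Finset.smul_sum]
      refine Finset.sum_congr rfl fun j _ => ?_
      rw [mul_smul, natCast_zsmul]
    have h4 := Fintype.linearIndependent_iff.1 hQ _ h3
    funext j
    have h5 : z j = 0 := (mul_eq_zero.1 (h4 j)).resolve_left (by exact_mod_cast hne)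
    have h6 := hz j
    rw [h5, Int.cast_zero] at h6
    exact (mul_eq_zero.1 h6.symm).resolve_left (by exact_mod_cast hd)
  have h1 := LinearMap.finrank_le_finrank_of_injective hΨ
  rw [Module.finrank_fin_fun, Module.finrank_pi_fintype, Finset.sum_const, Finset.card_univ, Fintype.card_fin, smul_eq_mul] at h1
  have h2 : g ≤ finrank ℚ (LinearMap.range φ) := by
    by_contra hlt
    push Not at hlt
    have h3 : g * finrank ℚ (LinearMap.range φ) < g * g := Nat.mul_lt_mul_of_pos_left hlt hg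
    have h4 : g ^ 2 = g * g := sq g
    omega
  have h3 := LinearMap.finrank_range_add_finrank_ker φ
  rw [Module.finrank_fin_fun] at h3
  omega

end Pool.Agent.H38.RC
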